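import Pool.Agent.W744.BU.Stm

set_option autoImplicit false

open Set Filter Topology

namespace Pool.Agent.W236.BU.EQ

open Pool.Agent.W744.BU

theorem up_inj (D : Dat) (t : unitInterval) : Function.Injective (up D t) := by
  rintro ⟨⟨n, i⟩, g⟩ ⟨⟨m, j⟩, h⟩ H
  change (⟨n + 1, ⟨t, (i, g)⟩⟩ : Σ n : ℕ, (seqR D n).I) = ⟨m + 1, ⟨t, (j, h)⟩⟩ at H
  have h1 : n + 1 = m + 1 := congrArg Sigma.fst H
  obtain rfl : n = m := Nat.succ_injective h1
  have h2 : ((⟨t, (i, g)⟩ : Σ _ : unitInterval, (seqR D n).I × D.G)) = ⟨t, (j, h)⟩ :=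
    eq_of_heq (Sigma.mk.inj_iff.mp H).2
  have h3 : (i, g) = (j, h) := eq_of_heq (Sigma.mk.inj_iff.mp h2).2
  have h4 : i = j := congrArg Prod.fst h3
  have h5 : g = h := congrArg Prod.snd h3
  rw [h4, h5]

theorem upG_inj (D : Dat) (t : unitInterval) : Function.Injective (upG D t) := by
  rintro ⟨p, g⟩ ⟨q, h⟩ H
  have h1 : up D t p = up D t q := congrArg Prod.fst H
  have h2 : g = h := congrArg Prod.snd H
  rw [up_inj D t h1, h2]

/-- Tensor products with a reduced first factor are reduced. -/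
theorem red_tens {J' J K : Type} (ι : J' → J) (a : Op J) (b : Op K) (c : Op (J × K))
    (ha : Red ι a) (hc : IsTens a b c) :
    Red (fun p : J' × K => (ι p.1, p.2)) c := by
  rintro ⟨j, k⟩ ⟨i, k'⟩ hj
  have hj' : j ∉ range ι := by
    rintro ⟨i', rfl⟩
    exact hj ⟨(i', k), rfl⟩
  obtain ⟨h1, h2⟩ := ha j i hj'
  refine ⟨?_, ?_⟩
  · rw [hc, h1, zero_mul]
  · rw [hc, h2, zero_mul]

theorem red_UU (hTENS : S_TENS) (hUP : S_UP) (D : Dat) (t : unitInterval) (g : D.G) :
    Red (upG D t) (UU (tot D) g) :=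
  red_tens (up D t) ((tot D).X g) (lam g) (UU (tot D) g) (hUP D t g).1
    (hTENS.1 _ _ ((tot D).X g) (lam g)).1

theorem red_CA (hTENS : S_TENS) (hCOMP : S_COMP) (hUP : S_UP) (D : Dat) (t : unitInterval)
    (a : Op ((tot D).I × D.G)) (ha : a ∈ CA (UU (tot D))) : Red (upG D t) a := by
  obtain ⟨-, -, R, hRc, hR, -⟩ := hCOMP _ _ (upG D t) (upG_inj D t)
  have hle : CA (UU (tot D)) ≤ R := by
    refine StarSubalgebra.topologicalClosure_minimal (StarAlgebra.adjoin_le ?_) hRc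
    rintro _ ⟨g, rfl⟩
    exact (hR _).2 (red_UU hTENS hUP D t g)
  exact (hR a).1 (hle ha)

theorem main (_hENT : S_ENT) (hTENS : S_TENS) (hCOMP : S_COMP) (_hLAM : S_LAM) (hUP : S_UP) :
    S_EQ := by
  intro D t
  obtain ⟨hent0, -, -⟩ := hCOMP _ _ (upG D t) (upG_inj D t)
  have hι : Function.Injective
      (fun p : ((((tot D).I × D.G) × D.G) × D.G) => (upG D t p.1, p.2)) := by
    rintro ⟨p, g⟩ ⟨q, h⟩ H
    have h1 : upG D t p = upG D t q := congrArg Prod.fst H
    have h2 : g = h := congrArg Prod.snd H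
    rw [upG_inj D t h1, h2]
  obtain ⟨hent, -, R, hRc, hR, C, hC⟩ := hCOMP _ _
    (fun p : ((((tot D).I × D.G) × D.G) × D.G) => (upG D t p.1, p.2)) hι
  have hle : spat (CA (UU (tot D))) (CA (lam : D.G → Op D.G)) ≤ R := by
    refine StarSubalgebra.topologicalClosure_minimal (StarAlgebra.adjoin_le ?_) hRc
    rintro c ⟨a, ha, b, -, hc⟩
    exact (hR _).2 (red_tens (upG D t) a b c (red_CA hTENS hCOMP hUP D t a ha) hc)
  have hF : ∀ (c : spat (CA (UU (tot D))) (CA (lam : D.G → Op D.G))) p k p' k',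
      entry ((C.comp (StarSubalgebra.inclusion hle)) c) (p, k) (p', k') =
        entry (c : Op (((tot D).I × D.G) × D.G)) (upG D t p, k) (upG D t p', k') := by
    intro c p k p' k'
    have h1 : (C.comp (StarSubalgebra.inclusion hle)) c =
        comp (fun p : ((((tot D).I × D.G) × D.G) × D.G) => (upG D t p.1, p.2))
          (c : Op (((tot D).I × D.G) × D.G)) := hC _
    rw [h1, hent]
  refine ⟨C.comp (StarSubalgebra.inclusion hle), ?_, hF⟩
  intro a _ b _ c hc p k p' k'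
  rw [hF, hc, hent0]

end Pool.Agent.W236.BU.EQ
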